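import Pool.Agent.NPC.Dec
import Pool.Agent.H671R2.PolyAuto

/-!
# Utilities for polynomial time
-/

set_option autoImplicit false

namespace Pool.Agent.V11231.Util

open Pool.Agent.NPC

variable {α : Type} [TEnc α]

theorem idxOf_eq_aux (v : ℕ) : ∀ (l : List ℕ) (n : ℕ),
    ((((l.zipIdx n).filter fun q => decide (q.1 = v)).head?.map fun q => q.2).getD
      (n + l.length)) = n + l.idxOf v
  | [], n => by simp
  | a :: l, n => by
    rw [List.zipIdx_cons]
    by_cases h : a = v
    · subst h
      simp
    · rw [List.filter_cons_of_neg (by simpa using h), List.idxOf_cons_ne _ h, List.length_cons]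
      have := idxOf_eq_aux v l (n + 1)
      rw [show n + (l.length + 1) = n + 1 + l.length by ring, this]
      omega

@[fun_prop]
theorem poly_idxOf {l : α → List ℕ} {v : α → ℕ} (hl : Poly l) (hv : Poly v) :
    Poly (fun a => (l a).idxOf (v a)) := by
  have h : Poly (fun a => ((((l a).zipIdx.filter fun q => decide (q.1 = v a)).head?.map
      fun q => q.2).getD (l a).length)) := by fun_prop
  refine h.congr fun a => ?_
  have := idxOf_eq_aux (v a) (l a) 0
  simpa using this

/-- the list `0, …, n - 1`, where `n` is the length of the list -/
def rg {β : Type} (L : List β) : List ℕ := List.range L.length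

@[fun_prop]
theorem poly_rg {β : Type} [TEnc β] {L : α → List β} (h : Poly L) : Poly (fun a => rg (L a)) :=
  (UPoly.length h).range

/-- `l` is a permutation of `0, …, n - 1` -/
def isPermB {β : Type} (L : List β) (l : List ℕ) : Bool :=
  decide (l.length = L.length) && (rg L).all fun i => decide (i ∈ l)

@[fun_prop]
theorem poly_isPermB {β : Type} [TEnc β] {L : α → List β} {l : α → List ℕ} (h : Poly L)
    (hl : Poly l) : Poly (fun a => isPermB (L a) (l a)) := by
  unfold isPermB
  fun_prop

theorem isPermB_iff {β : Type} {L : List β} {l : List ℕ} :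
    isPermB L l = true ↔ l.Perm (List.range L.length) := by
  unfold isPermB rg
  simp only [Bool.and_eq_true, decide_eq_true_eq, List.all_eq_true, List.mem_range]
  constructor
  · rintro ⟨h1, h2⟩
    have h3 : (List.range L.length).Subperm l :=
      List.subperm_of_subset List.nodup_range fun i hi => h2 i (List.mem_range.1 hi)
    exact (h3.perm_of_length_le (by rw [List.length_range, h1])).symm
  · intro h
    refine ⟨by rw [h.length_eq, List.length_range], fun i hi => ?_⟩
    exact h.mem_iff.2 (List.mem_range.2 hi)

theorem sz_nat_le' (n : ℕ) : sz n ≤ 4 * n + 1 := by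
  have h1 := sz_nat_le n
  have h2 := Poly.size_le_self n
  omega

end Pool.Agent.V11231.Util
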