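import Pool.Agent.NPC.Dec
import Pool.Agent.H671R2.PolyAuto
import Pool.Agent.H623R2.PS.Savitch
import Pool.Agent.W903.GP.SpLang

/-!
# Utilities for polynomial space
-/

set_option autoImplicit false

namespace Pool.Agent.V11231.PSp

open Pool.Agent.NPC

section lists

variable {α β : Type} [TEnc α] [TEnc β]

omit [TEnc β] in
theorem drop_aux : ∀ (l : List β) (k j : ℕ),
    ((l.zipIdx j).filter (fun q => decide (j + k ≤ q.2))).map Prod.fst = l.drop k := by
  intro l
  induction l with
  | nil => simp
  | cons a l ih =>
    intro k j
    rw [List.zipIdx_cons]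
    cases k with
    | zero =>
      have h : ((a, j) :: l.zipIdx (j + 1)).filter (fun q => decide (j + 0 ≤ q.2)) =
          (a, j) :: l.zipIdx (j + 1) := by
        rw [List.filter_eq_self]
        intro q hq
        rcases List.mem_cons.1 hq with h | h
        · rw [h]; simp
        · have := List.le_snd_of_mem_zipIdx h
          simp only [decide_eq_true_eq]
          omega
      rw [h, List.drop_zero, List.map_cons, List.zipIdx_map_fst]
    | succ k =>
      rw [List.filter_cons_of_neg (by simp), List.drop_succ_cons]
      have e : j + (k + 1) = j + 1 + k := by omega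
      rw [e, ih k (j + 1)]

omit [TEnc β] in
theorem take_aux : ∀ (l : List β) (k j : ℕ),
    ((l.zipIdx j).filter (fun q => decide (q.2 < j + k))).map Prod.fst = l.take k := by
  intro l
  induction l with
  | nil => simp
  | cons a l ih =>
    intro k j
    rw [List.zipIdx_cons]
    cases k with
    | zero =>
      have h : ((a, j) :: l.zipIdx (j + 1)).filter (fun q => decide (q.2 < j + 0)) = [] := by
        rw [List.filter_eq_nil_iff]
        intro q hq
        rcases List.mem_cons.1 hq with h | h
        · rw [h]; simp
        · have := List.le_snd_of_mem_zipIdx h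
          simp only [decide_eq_true_eq]
          omega
      rw [h]; simp
    | succ k =>
      rw [List.filter_cons_of_pos (by simp), List.map_cons, List.take_succ_cons]
      have e : j + (k + 1) = j + 1 + k := by omega
      rw [e, ih k (j + 1)]

theorem poly_drop {l : α → List β} {k : α → ℕ} (hl : Poly l) (hk : Poly k) :
    Poly (fun a => (l a).drop (k a)) := by
  have h : Poly (fun a => ((l a).zipIdx.filter (fun q => decide (k a ≤ q.2))).map Prod.fst) := by
    fun_prop
  refine h.congr fun a => ?_
  have := drop_aux (l a) (k a) 0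
  simpa using this

theorem poly_take {l : α → List β} {k : α → ℕ} (hl : Poly l) (hk : Poly k) :
    Poly (fun a => (l a).take (k a)) := by
  have h : Poly (fun a => ((l a).zipIdx.filter (fun q => decide (q.2 < k a))).map Prod.fst) := by
    fun_prop
  refine h.congr fun a => ?_
  have := take_aux (l a) (k a) 0
  simpa using this

end lists

/-- The two forms of polynomial space. -/
theorem inPSPACE_iff {L : Set (List Bool)} : PIso.InPSPACE L ↔ Pool.Agent.H623R2.PS.InPSPACE L := by
  classical
  constructor
  · rintro ⟨tm, ein, eout, p, h⟩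
    choose h1 h2 using h
    choose n b hb1 hb2 using h1
    refine ⟨b, ⟨⟨tm, ein, eout⟩, fun x => ⟨n x, ?_⟩⟩,
      (let _ := tm.kFin; Polynomial.C (Fintype.card tm.K) * p), fun x => (hb1 x).symm, ?_⟩
    · exact hb2 x
    · intro x c hc
      have hreach : ∃ i, (flip bind tm.step)^[i] (some (Turing.initList tm (x.map ein.symm))) =
          some c := by
        change StateTransition.Reaches tm.step (Turing.initList tm (x.map ein.symm)) c at hc
        induction hc with
        | refl => exact ⟨0, rfl⟩
        | tail _ hstep ih =>
          obtain ⟨i, hi⟩ := ih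
          refine ⟨i + 1, ?_⟩
          rw [Function.iterate_succ_apply', hi]
          exact hstep
      obtain ⟨i, hi⟩ := hreach
      have h3 := h2 x i c hi
      unfold Pool.Agent.H623R2.PS.space
      letI := tm.kFin
      rw [Polynomial.eval_mul, Polynomial.eval_C]
      calc ∑ k, (c.stk k).length ≤ ∑ _k : tm.K, p.eval x.length :=
            Finset.sum_le_sum fun k _ => h3 k
        _ = Fintype.card tm.K * p.eval x.length := by
            rw [Finset.sum_const, Finset.card_univ, smul_eq_mul]
  · rintro ⟨f, M, p, h1, h2⟩
    refine ⟨M.tm, M.inputAlphabet, M.outputAlphabet, p, fun x => ⟨?_, ?_⟩⟩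
    · obtain ⟨n, hn⟩ := M.outputsFun x
      exact ⟨n, f x, (h1 x).symm, hn⟩
    · intro i c hi k
      have hreach : StateTransition.Reaches M.tm.step
          (Turing.initList M.tm (x.map M.inputAlphabet.invFun)) c := by
        clear k
        induction i generalizing c with
        | zero =>
          have h3 := Option.some.inj hi
          rw [← h3]
          exact Relation.ReflTransGen.refl
        | succ i ih =>
          rw [Function.iterate_succ_apply'] at hi
          cases h3 : (flip bind M.tm.step)^[i] (some (Turing.initList M.tm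
              (x.map M.inputAlphabet.symm))) with
          | none => rw [h3] at hi; change (none : Option M.tm.Cfg) = some c at hi; cases hi
          | some c' =>
            rw [h3] at hi
            exact Relation.ReflTransGen.tail (ih c' h3) hi
      refine le_trans ?_ (h2 x c hreach)
      unfold Pool.Agent.H623R2.PS.space
      letI := M.tm.kFin
      exact Finset.single_le_sum (f := fun k => (c.stk k).length) (fun _ _ => Nat.zero_le _)
        (Finset.mem_univ k)


open Pool.Agent.W903.GP

/-- complements -/
theorem inPSPACE_compl {L : Set (List Bool)} (h : Pool.Agent.H623R2.PS.InPSPACE L) :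
    Pool.Agent.H623R2.PS.InPSPACE Lᶜ := by
  obtain ⟨F, hF, h1⟩ := sp_of_inPSPACE (inPSPACE_iff.2 h)
  refine inPSPACE_iff.1 (inPSPACE_of_sp (F := fun x => !F x)
    (Sp.post (g := fun b : Bool => !b) hF (NPC.Poly.not NPC.Poly.id)) ?_)
  intro x
  rw [Set.mem_compl_iff, h1]
  simp

/-- differences -/
theorem inPSPACE_diff {L1 L2 L : Set (List Bool)} (h1 : Pool.Agent.H623R2.PS.InPSPACE L1)
    (h2 : Pool.Agent.H623R2.PS.InPSPACE L2) (h : ∀ x, x ∈ L ↔ x ∈ L1 ∧ x ∉ L2) :
    Pool.Agent.H623R2.PS.InPSPACE L := by
  obtain ⟨F, hF, h1⟩ := sp_of_inPSPACE (inPSPACE_iff.2 h1)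
  obtain ⟨G, hG, h2⟩ := sp_of_inPSPACE (inPSPACE_iff.2 h2)
  refine inPSPACE_iff.1 (inPSPACE_of_sp (F := fun x => F x && !G x)
    (Sp.op2 (g := fun p : Bool × Bool => p.1 && !p.2) hF hG
      (NPC.Poly.and (NPC.Poly.fst NPC.Poly.id) (NPC.Poly.not (NPC.Poly.snd NPC.Poly.id)))) ?_)
  intro x
  rw [h, h1, h2]
  simp

end Pool.Agent.V11231.PSp
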