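import Pool.Agent.H656R2.AK.TQPoly
import Pool.Agent.H656R2.AK.GameIn
import Pool.Agent.H671R2.PolyAuto

/-!
# Quantified formulas with clauses of length at most three
-/

set_option autoImplicit false

namespace Pool.Agent.V11231.Q3

open Pool.Agent.NPC Pool.Agent.H623R2.PS Pool.Agent.H656R2.AK

theorem evq_append (qs rs : List Bool) (φ : List Bool → Bool) :
    evq (qs ++ rs) φ = evq qs (fun u => evq rs (fun v => φ (u ++ v))) := by
  induction qs generalizing φ with
  | nil => rfl
  | cons q qs ih =>
    rw [List.cons_append, evq, evq, ih, ih]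
    rfl

theorem evq_congr {qs : List Bool} {φ ψ : List Bool → Bool}
    (h : ∀ u, u.length = qs.length → φ u = ψ u) : evq qs φ = evq qs ψ := by
  induction qs generalizing φ ψ with
  | nil => exact h [] rfl
  | cons q qs ih =>
    rw [evq, evq, ih (fun u hu => h (false :: u) (by simp [hu])),
      ih (fun u hu => h (true :: u) (by simp [hu]))]

/-- the width of a block of new variables -/
def bw (Q : QF) : ℕ := Q.2.flatten.length + 1

/-- the clauses for a clause -/
def cl3 (o : ℕ) (w : List (Bool × ℕ)) : List (List (Bool × ℕ)) :=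
  [(false, o)] :: ((w.zipIdx.map fun p => [(false, o + (p.2 + 1)), (true, o + p.2), p.1]) ++
    [[(true, o + w.length)]])

/-- the formula -/
def q3 (Q : QF) : QF :=
  (Q.1 ++ List.replicate (Q.2.length * bw Q) false,
    Q.2.zipIdx.flatMap fun p => cl3 (Q.1.length + p.2 * bw Q) p.1)

theorem length_lt_bw {Q : QF} {w : List (Bool × ℕ)} (h : w ∈ Q.2) : w.length < bw Q := by
  unfold bw
  have : w.length ≤ Q.2.flatten.length := by
    rw [List.length_flatten]
    exact List.single_le_sum (fun _ _ => Nat.zero_le _) _ (List.mem_map_of_mem h)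
  omega

theorem q3_width (Q : QF) : ∀ w ∈ (q3 Q).2, w.length ≤ 3 := by
  intro w hw
  unfold q3 cl3 at hw
  simp only [List.mem_flatMap, List.mem_cons, List.mem_append, List.mem_map, List.not_mem_nil,
    or_false] at hw
  obtain ⟨p, _, rfl | ⟨q, _, rfl⟩ | rfl⟩ := hw <;> simp

theorem mem_zipIdx_iff' {β : Type} {l : List β} {x : β} {i : ℕ} :
    (x, i) ∈ l.zipIdx ↔ l[i]? = some x := by
  rw [List.mem_zipIdx_iff_getElem?]

theorem q3_wf {Q : QF} (hQ : QFwf Q) : QFwf (q3 Q) := by
  intro w hw l hl
  unfold q3 cl3 at hw
  have hlen : (q3 Q).1.length = Q.1.length + Q.2.length * bw Q := by simp [q3]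
  rw [hlen]
  simp only [List.mem_flatMap, List.mem_cons, List.mem_append, List.mem_map, List.not_mem_nil,
    or_false] at hw
  obtain ⟨⟨w0, k⟩, hp, hw⟩ := hw
  rw [mem_zipIdx_iff', List.getElem?_eq_some_iff] at hp
  obtain ⟨hk, hw0⟩ := hp
  have hmem : w0 ∈ Q.2 := by rw [← hw0]; exact List.getElem_mem hk
  have h1 := length_lt_bw hmem
  have h2 : (k + 1) * bw Q ≤ Q.2.length * bw Q := Nat.mul_le_mul_right _ hk
  simp only at hw
  rcases hw with rfl | ⟨⟨l0, i⟩, hq, rfl⟩ | rfl
  · simp only [List.mem_cons, List.not_mem_nil, or_false] at hl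
    subst hl
    simp only
    nlinarith
  · rw [mem_zipIdx_iff', List.getElem?_eq_some_iff] at hq
    obtain ⟨hi, hl0⟩ := hq
    simp only [List.mem_cons, List.not_mem_nil, or_false] at hl
    rcases hl with rfl | rfl | rfl
    · simp only
      nlinarith
    · simp only
      nlinarith
    · have := hQ w0 hmem l (by rw [← hl0]; exact List.getElem_mem hi)
      omega
  · simp only [List.mem_cons, List.not_mem_nil, or_false] at hl
    subst hl
    simp only
    nlinarith

/-- the literal is true -/
def lt (u : List Bool) (l : Bool × ℕ) : Bool := u.getD l.2 false == l.1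

theorem evc_iff {u : List Bool} {C : List (List (Bool × ℕ))} :
    evc u C = true ↔ ∀ w ∈ C, ∃ l ∈ w, lt u l = true := by
  unfold evc lt
  simp only [List.all_eq_true, List.any_eq_true]

theorem clause_iff {Q : QF} (hQ : QFwf Q) {u : List Bool} (hu : u.length = Q.1.length) :
    (∃ M : List Bool, M.length = Q.2.length * bw Q ∧ evc (u ++ M) (q3 Q).2 = true) ↔
      evc u Q.2 = true := by
  have hlit : ∀ M : List Bool, ∀ l : Bool × ℕ, l.2 < Q.1.length → lt (u ++ M) l = lt u l := by
    intro M l hl
    unfold lt
    rw [List.getD_append _ _ _ _ (by omega)]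
  constructor
  · rintro ⟨M, hM, h⟩
    rw [evc_iff] at h ⊢
    intro w hw
    obtain ⟨k, hk, hkw⟩ := List.getElem_of_mem hw
    set v := u ++ M with hv
    set o := Q.1.length + k * bw Q with ho
    have hcl : ∀ x ∈ cl3 o w, ∃ l ∈ x, lt v l = true := by
      intro x hx
      refine h x ?_
      unfold q3
      rw [List.mem_flatMap]
      exact ⟨(w, k), by rw [mem_zipIdx_iff', List.getElem?_eq_some_iff]; exact ⟨hk, hkw⟩, hx⟩
    by_contra hcon
    push Not at hcon
    have key : ∀ i ≤ w.length, v.getD (o + i) false = false := by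
      intro i
      induction i with
      | zero =>
        intro _
        obtain ⟨l, hl, h1⟩ := hcl [(false, o)] (by simp [cl3])
        simp only [List.mem_cons, List.not_mem_nil, or_false] at hl
        subst hl
        unfold lt at h1
        simpa using h1
      | succ i ih =>
        intro hi
        have h0 := ih (by omega)
        have hi' : i < w.length := by omega
        obtain ⟨l, hl, h1⟩ := hcl [(false, o + (i + 1)), (true, o + i), w[i]] (by
          unfold cl3
          refine List.mem_cons_of_mem _ (List.mem_append_left _ ?_)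
          rw [List.mem_map]
          exact ⟨(w[i], i), by rw [mem_zipIdx_iff', List.getElem?_eq_some_iff]; exact ⟨hi', rfl⟩,
            rfl⟩)
        simp only [List.mem_cons, List.not_mem_nil, or_false] at hl
        rcases hl with rfl | rfl | rfl
        · unfold lt at h1
          simpa using h1
        · unfold lt at h1
          simp only [beq_iff_eq] at h1
          rw [h0] at h1
          exact absurd h1 (by simp)
        · have h2 := hcon w[i] (List.getElem_mem _)
          rw [hlit M _ (hQ w hw _ (List.getElem_mem _))] at h1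
          exact absurd h1 h2
    obtain ⟨l, hl, h1⟩ := hcl [(true, o + w.length)] (by simp [cl3])
    simp only [List.mem_cons, List.not_mem_nil, or_false] at hl
    subst hl
    unfold lt at h1
    simp only [beq_iff_eq] at h1
    rw [key _ le_rfl] at h1
    exact absurd h1 (by simp)
  · intro h
    rw [evc_iff] at h
    set M : List Bool := (List.range (Q.2.length * bw Q)).map fun t =>
      (((Q.2.getD (t / bw Q) []).take (t % bw Q)).any fun l => lt u l) with hM
    have hMlen : M.length = Q.2.length * bw Q := by simp [hM]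
    refine ⟨M, hMlen, ?_⟩
    rw [evc_iff]
    intro x hx
    unfold q3 at hx
    rw [List.mem_flatMap] at hx
    obtain ⟨⟨w, k⟩, hp, hx⟩ := hx
    rw [mem_zipIdx_iff', List.getElem?_eq_some_iff] at hp
    obtain ⟨hk, hw⟩ := hp
    have hmem : w ∈ Q.2 := by rw [← hw]; exact List.getElem_mem hk
    have h1 := length_lt_bw hmem
    have h2 : (k + 1) * bw Q ≤ Q.2.length * bw Q := Nat.mul_le_mul_right _ hk
    have hval : ∀ i ≤ w.length, (u ++ M).getD (Q.1.length + k * bw Q + i) false =
        ((w.take i).any fun l => lt u l) := by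
      intro i hi
      have h3 : k * bw Q + i < M.length := by rw [hMlen]; nlinarith
      have h4 : Q.1.length + k * bw Q + i = u.length + (k * bw Q + i) := by omega
      rw [h4, List.getD_append_right _ _ _ _ (by omega), Nat.add_sub_cancel_left,
        List.getD_eq_getElem _ _ h3]
      simp only [hM, List.getElem_map, List.getElem_range]
      have h5 : (k * bw Q + i) / bw Q = k := by
        rw [Nat.add_comm, Nat.add_mul_div_right _ _ (by omega), Nat.div_eq_of_lt (by omega),
          zero_add]
      have h6 : (k * bw Q + i) % bw Q = i := by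
        rw [Nat.add_comm, Nat.add_mul_mod_self_right, Nat.mod_eq_of_lt (by omega)]
      rw [h5, h6, List.getD_eq_getElem _ _ hk, hw]
    unfold cl3 at hx
    simp only [List.mem_cons, List.mem_append, List.mem_map, List.not_mem_nil, or_false] at hx
    rcases hx with rfl | ⟨⟨l, i⟩, hq, rfl⟩ | rfl
    · refine ⟨_, List.mem_cons_self, ?_⟩
      have h3 := hval 0 (Nat.zero_le _)
      unfold lt
      simp only [Nat.add_zero, List.take_zero, List.any_nil] at h3
      simp only [h3]
      rfl
    · rw [mem_zipIdx_iff', List.getElem?_eq_some_iff] at hq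
      obtain ⟨hi, hl⟩ := hq
      have h3 := hval i (by omega)
      have h4 := hval (i + 1) (by omega)
      by_cases h5 : lt u l = true
      · refine ⟨l, by simp, ?_⟩
        rw [hlit _ _ (hQ w hmem l (by rw [← hl]; exact List.getElem_mem hi))]
        exact h5
      · by_cases h6 : ((w.take i).any fun l => lt u l) = true
        · refine ⟨(true, Q.1.length + k * bw Q + i), by simp, ?_⟩
          unfold lt
          simp only
          rw [h3, h6]
          rfl
        · refine ⟨(false, Q.1.length + k * bw Q + (i + 1)), by simp, ?_⟩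
          unfold lt
          simp only
          rw [h4, List.take_add_one, List.any_append, List.getElem?_eq_getElem hi, hl]
          simp only [Bool.not_eq_true] at h5 h6
          simp [h5, h6]
    · refine ⟨_, List.mem_cons_self, ?_⟩
      have h3 := hval w.length le_rfl
      unfold lt
      simp only
      rw [h3, List.take_length]
      obtain ⟨l, hl, h4⟩ := h w hmem
      have : (w.any fun l => lt u l) = true := List.any_eq_true.2 ⟨l, hl, h4⟩
      rw [this]
      rfl

theorem q3_iff {Q : QF} (hQ : QFwf Q) :
    evq (q3 Q).1 (fun v => evc v (q3 Q).2) = evq Q.1 (fun v => evc v Q.2) := by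
  have h : (q3 Q).1 = Q.1 ++ List.replicate (Q.2.length * bw Q) false := rfl
  rw [h, evq_append]
  apply evq_congr
  intro u hu
  rw [Bool.eq_iff_iff, ← clause_iff hQ hu]
  have h1 := evq_exists (Q.2.length * bw Q) [] (fun v => evc (u ++ v) (q3 Q).2)
  rw [List.append_nil] at h1
  rw [h1]
  simp [evq]

theorem poly_q3 : NPC.Poly q3 := by
  have hC : NPC.Poly (fun Q : QF => Q.2) := NPC.Poly.snd NPC.Poly.id
  have hfl : NPC.Poly (fun Q : QF => Q.2.flatten) := by
    have h := NPC.Poly.flatMap (l := fun Q : QF => Q.2) (F := fun _ w => w) hC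
      (NPC.Poly.snd NPC.Poly.id)
    refine h.congr fun Q => ?_
    simp [List.flatMap_def]
  have hb : UPoly bw := UPoly.add (UPoly.length hfl) (UPoly.const 1)
  have hbp : NPC.Poly bw := hb.toPoly
  have h1 : NPC.Poly (fun Q : QF => Q.1 ++ List.replicate (Q.2.length * bw Q) false) :=
    NPC.Poly.append (NPC.Poly.fst NPC.Poly.id)
      (poly_replicate (UPoly.mul (UPoly.length hC) hb) false)
  have h2 : NPC.Poly (fun Q : QF => Q.2.zipIdx.flatMap fun p =>
      cl3 (Q.1.length + p.2 * bw Q) p.1) := by
    have hbp' : NPC.Poly (fun q : QF × (List (Bool × ℕ) × ℕ) => bw q.1) :=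
      hbp.comp (NPC.Poly.fst NPC.Poly.id)
    have hbp'' : NPC.Poly (fun q : (QF × (List (Bool × ℕ) × ℕ)) × (Bool × ℕ) × ℕ => bw q.1.1) :=
      hbp.comp (NPC.Poly.fst (NPC.Poly.fst NPC.Poly.id))
    unfold cl3
    fun_prop
  exact NPC.Poly.pair h1 h2

/-- Quantified formulas with clauses of length at most three are hard for polynomial space. -/
theorem qbf3_hard {L : Set (List Bool)} (hL : InPSPACE L) : ∃ f : List Bool → QF, NPC.Poly f ∧
    (∀ x, QFwf (f x)) ∧ (∀ x, ∀ w ∈ (f x).2, w.length ≤ 3) ∧
    ∀ x, x ∈ L ↔ evq (f x).1 (fun v => evc v (f x).2) = true := by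
  obtain ⟨f, h1, h2, h3⟩ := qbf_hard hL
  exact ⟨fun x => q3 (f x), poly_q3.comp h1, fun x => q3_wf (h2 x), fun x => q3_width _,
    fun x => by rw [q3_iff (h2 x)]; exact h3 x⟩

end Pool.Agent.V11231.Q3
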